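import Mathlib

set_option autoImplicit false

namespace Pool.Agent.H722R3

open Finset

lemma sum_inv_pow_card (V : Type*) [Fintype V] [DecidableEq V] (a : ℝ) :
    ∑ I : Finset V, a ^ I.card = (a + 1) ^ Fintype.card V := by
  have h := Finset.sum_pow_mul_eq_add_pow a 1 (Finset.univ : Finset V)
  simp only [one_pow, mul_one, Finset.powerset_univ] at h
  rw [h, Finset.card_univ]

/-- the number of edges between `I` and `J` -/
def cnt {D N : ℕ} (π : Fin D × Fin D × Fin N → Fin N) (I J : Finset (Fin D × Fin N)) : ℕ :=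
  (Finset.univ.filter fun e : Fin D × Fin D × Fin N =>
    (e.1, e.2.2) ∈ I ∧ (e.2.1, π e) ∈ J).card

lemma sum_pow_cnt {D N : ℕ} (r : ℕ) (hN : 1 ≤ N) (I J : Finset (Fin D × Fin N)) (hI : I.card ≤ r)
    (hJ : J.card ≤ r) :
    ∑ π : Fin D × Fin D × Fin N → Fin N, (N : ℝ) ^ cnt π I J
      ≤ (N : ℝ) ^ (Fintype.card (Fin D × Fin D × Fin N)) * (1 + r : ℝ) ^ (D * r) := by
  classical
  have hN' : (1 : ℝ) ≤ N := by exact_mod_cast hN
  let w : (Fin D × Fin D × Fin N) → Fin N → ℝ := fun e j =>
    if (e.1, e.2.2) ∈ I ∧ (e.2.1, j) ∈ J then (N : ℝ) else 1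
  have h1 : ∀ π : Fin D × Fin D × Fin N → Fin N, (N : ℝ) ^ cnt π I J = ∏ e, w e (π e) := by
    intro π
    simp only [w, cnt]
    rw [Finset.prod_ite]
    simp
  simp_rw [h1]
  have h2 := Finset.prod_univ_sum (fun _ : Fin D × Fin D × Fin N => (Finset.univ : Finset (Fin N))) w
  rw [Fintype.piFinset_univ] at h2
  rw [← h2]
  have h3 : ∀ e : Fin D × Fin D × Fin N, ∑ j, w e j ≤
      N * (if (e.1, e.2.2) ∈ I then (1 + r : ℝ) else 1) := by
    intro e
    by_cases he : (e.1, e.2.2) ∈ I
    · simp only [w, he, true_and, if_true]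
      rw [Finset.sum_ite]
      simp only [Finset.sum_const, nsmul_eq_mul, mul_one]
      have hc : (Finset.univ.filter fun j : Fin N => (e.2.1, j) ∈ J).card ≤ r := by
        refine le_trans ?_ hJ
        apply Finset.card_le_card_of_injOn (fun j => (e.2.1, j))
        · intro j hj
          simpa using hj
        · intro j _ j' _ hjj
          exact (Prod.mk.inj hjj).2
      have hc' : ((Finset.univ.filter fun j : Fin N => (e.2.1, j) ∈ J).card : ℝ) ≤ r := by
        exact_mod_cast hc
      have hd : ((Finset.univ.filter fun j : Fin N => ¬ (e.2.1, j) ∈ J).card : ℝ) ≤ N := by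
        have := Finset.card_le_univ (Finset.univ.filter fun j : Fin N => ¬ (e.2.1, j) ∈ J)
        rw [Fintype.card_fin] at this
        exact_mod_cast this
      nlinarith
    · simp [w, he]
  have h4 : ∏ e, ∑ j, w e j ≤ ∏ e : Fin D × Fin D × Fin N,
      (N * (if (e.1, e.2.2) ∈ I then (1 + r : ℝ) else 1)) := by
    apply Finset.prod_le_prod
    · intro e _
      apply Finset.sum_nonneg
      intro j _
      simp only [w]
      split_ifs <;> linarith
    · intro e _
      exact h3 e
  refine h4.trans ?_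
  rw [Finset.prod_mul_distrib, Finset.prod_const, Finset.card_univ]
  apply mul_le_mul_of_nonneg_left _ (by positivity)
  rw [Finset.prod_ite]
  simp only [Finset.prod_const, one_pow, mul_one]
  apply pow_le_pow_right₀ (by linarith [Nat.cast_nonneg (α := ℝ) r])
  calc (Finset.univ.filter fun e : Fin D × Fin D × Fin N => (e.1, e.2.2) ∈ I).card
      ≤ ((Finset.univ : Finset (Fin D)) ×ˢ I).card := by
        apply Finset.card_le_card_of_injOn (fun e => (e.2.1, (e.1, e.2.2)))
        · intro e he
          simpa using he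
        · rintro ⟨a, b, i⟩ _ ⟨a', b', i'⟩ _ hee
          simp only [Prod.mk.injEq] at hee
          obtain ⟨h1, h2, h3⟩ := hee
          rw [h1, h2, h3]
    _ = D * I.card := by rw [Finset.card_product]; simp
    _ ≤ D * r := Nat.mul_le_mul_left _ hI

theorem exists_map (D r : ℕ) : ∃ N : ℕ, 1 ≤ N ∧ ∃ π : Fin D × Fin D × Fin N → Fin N,
    ∀ I J : Finset (Fin D × Fin N), I.card + J.card ≤ r → cnt π I J ≤ I.card + J.card := by
  classical
  obtain ⟨N, hN⟩ := exists_nat_gt (max 1 (Real.exp D * Real.exp D * (1 + r : ℝ) ^ (D * r)))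
  have hN1 : (1 : ℝ) < N := (le_max_left _ _).trans_lt hN
  have hN2 : Real.exp D * Real.exp D * (1 + r : ℝ) ^ (D * r) < N := (le_max_right _ _).trans_lt hN
  have hN3 : 1 ≤ N := by exact_mod_cast hN1.le
  have hN0 : (0 : ℝ) < N := by linarith
  refine ⟨N, hN3, ?_⟩
  set V := Fin D × Fin N
  set S : Finset (Finset V × Finset V) := Finset.univ.filter fun p => p.1.card + p.2.card ≤ r
  let f : (Fin D × Fin D × Fin N → Fin N) → ℝ := fun π =>
    ∑ p ∈ S, (N : ℝ) ^ cnt π p.1 p.2 * ((1 / N : ℝ) ^ (p.1.card + p.2.card + 1))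
  have hV : Fintype.card V = D * N := by simp [V]
  have hsumV : ∑ I : Finset V, (1 / N : ℝ) ^ I.card ≤ Real.exp D := by
    rw [sum_inv_pow_card, hV]
    have h1 : (1 / N : ℝ) + 1 ≤ Real.exp (1 / N) := Real.add_one_le_exp _
    calc ((1 / N : ℝ) + 1) ^ (D * N) ≤ (Real.exp (1 / N)) ^ (D * N) :=
          pow_le_pow_left₀ (by positivity) h1 _
      _ = Real.exp D := by
          rw [← Real.exp_nat_mul]
          congr 1
          push_cast
          field_simp
  have htot : ∑ π, f π < ∑ π : Fin D × Fin D × Fin N → Fin N, (1 : ℝ) := by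
    simp only [f]
    rw [Finset.sum_comm]
    calc ∑ p ∈ S, ∑ π : Fin D × Fin D × Fin N → Fin N,
            (N : ℝ) ^ cnt π p.1 p.2 * ((1 / N : ℝ) ^ (p.1.card + p.2.card + 1))
        ≤ ∑ p ∈ S, ((N : ℝ) ^ (Fintype.card (Fin D × Fin D × Fin N)) * (1 + r : ℝ) ^ (D * r)) *
            ((1 / N : ℝ) ^ (p.1.card + p.2.card + 1)) := by
          apply Finset.sum_le_sum
          intro p hp
          simp only [S, Finset.mem_filter, Finset.mem_univ, true_and] at hp
          rw [← Finset.sum_mul]
          apply mul_le_mul_of_nonneg_right _ (by positivity)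
          exact sum_pow_cnt r hN3 p.1 p.2 (by omega) (by omega)
      _ ≤ ∑ p : Finset V × Finset V, ((N : ℝ) ^ (Fintype.card (Fin D × Fin D × Fin N)) *
            (1 + r : ℝ) ^ (D * r)) * ((1 / N : ℝ) ^ (p.1.card + p.2.card + 1)) := by
          apply Finset.sum_le_univ_sum_of_nonneg
          intro p
          positivity
      _ = ((N : ℝ) ^ (Fintype.card (Fin D × Fin D × Fin N)) *
            (1 + r : ℝ) ^ (D * r)) * (1 / N) * ((∑ I : Finset V, (1 / N : ℝ) ^ I.card) *
              (∑ I : Finset V, (1 / N : ℝ) ^ I.card)) := by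
          rw [← Finset.mul_sum, Fintype.sum_prod_type, Finset.sum_mul_sum, mul_assoc _ (1 / N : ℝ)]
          congr 1
          rw [Finset.mul_sum]
          apply Finset.sum_congr rfl
          intro I _
          rw [Finset.mul_sum]
          apply Finset.sum_congr rfl
          intro J _
          ring
      _ ≤ ((N : ℝ) ^ (Fintype.card (Fin D × Fin D × Fin N)) *
            (1 + r : ℝ) ^ (D * r)) * (1 / N) * (Real.exp D * Real.exp D) := by
          apply mul_le_mul_of_nonneg_left _ (by positivity)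
          apply mul_le_mul hsumV hsumV _ (by positivity)
          apply Finset.sum_nonneg
          intro I _
          positivity
      _ = (N : ℝ) ^ (Fintype.card (Fin D × Fin D × Fin N)) *
            ((Real.exp D * Real.exp D * (1 + r : ℝ) ^ (D * r)) / N) := by ring
      _ < (N : ℝ) ^ (Fintype.card (Fin D × Fin D × Fin N)) * 1 := by
          apply mul_lt_mul_of_pos_left _ (by positivity)
          rw [div_lt_one hN0]
          exact hN2
      _ = ∑ π : Fin D × Fin D × Fin N → Fin N, (1 : ℝ) := by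
          simp
  obtain ⟨π, -, hπ⟩ := Finset.exists_lt_of_sum_lt htot
  refine ⟨π, ?_⟩
  intro I J hIJ
  have h1 : (N : ℝ) ^ cnt π I J * ((1 / N : ℝ) ^ (I.card + J.card + 1)) < 1 := by
    refine lt_of_le_of_lt ?_ hπ
    apply Finset.single_le_sum (f := fun p : Finset V × Finset V =>
      (N : ℝ) ^ cnt π p.1 p.2 * ((1 / N : ℝ) ^ (p.1.card + p.2.card + 1)))
      (fun p _ => by positivity) (a := (I, J))
    simp [S, hIJ]
  rw [one_div, inv_pow, ← div_eq_mul_inv, div_lt_one (by positivity)] at h1
  have h2 := (pow_lt_pow_iff_right₀ hN1).1 h1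
  omega

end Pool.Agent.H722R3
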