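import Pool.Agent.H722R3.Signs
import Pool.Agent.H722R3.Sparse

set_option autoImplicit false

namespace Pool.Agent.H722R3

open Finset

/-- sign of a real number, never zero -/
noncomputable def sgr (x : ℝ) : ℝ := if 0 ≤ x then 1 else -1

lemma sgr_cases (x : ℝ) : sgr x = 1 ∨ sgr x = -1 := by
  unfold sgr; split_ifs <;> simp

lemma sgr_mul (x : ℝ) : sgr x * x = |x| := by
  unfold sgr
  split_ifs with h
  · rw [abs_of_nonneg h, one_mul]
  · rw [abs_of_neg (not_le.1 h)]; ring

lemma sgr_abs (x : ℝ) : |sgr x| ≤ 1 := by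
  rcases sgr_cases x with h | h <;> simp [h]

lemma cube_of_sign {R C : Type*} [Fintype R] [Fintype C] (U : R → C → ℝ) (K : ℝ)
    (h : ∀ (x : R → ℝ) (y : C → ℝ), (∀ i, x i = 1 ∨ x i = -1) → (∀ j, y j = 1 ∨ y j = -1) →
      ∑ i, ∑ j, U i j * (x i * y j) ≤ K)
    (x : R → ℝ) (y : C → ℝ) (hx : ∀ i, |x i| ≤ 1) (hy : ∀ j, |y j| ≤ 1) :
    |∑ i, ∑ j, U i j * (x i * y j)| ≤ K := by
  have h1 : ∀ y : C → ℝ, (∀ j, y j = 1 ∨ y j = -1) → ∑ i, |∑ j, U i j * y j| ≤ K := by
    intro y hy
    have h2 := h (fun i => sgr (∑ j, U i j * y j)) y (fun i => sgr_cases _) hy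
    refine le_trans (le_of_eq ?_) h2
    apply Finset.sum_congr rfl
    intro i _
    rw [← sgr_mul, Finset.mul_sum]
    apply Finset.sum_congr rfl
    intro j _
    ring
  have h2 : ∑ j, |∑ i, U i j * x i| ≤ K := by
    set g : C → ℝ := fun j => sgr (∑ i, U i j * x i)
    refine le_trans ?_ (h1 g (fun j => sgr_cases _))
    have h3 : ∑ j, |∑ i, U i j * x i| = ∑ i, x i * ∑ j, U i j * g j := by
      have : ∀ j, |∑ i, U i j * x i| = ∑ i, x i * (U i j * g j) := by
        intro j
        rw [← sgr_mul, Finset.mul_sum]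
        apply Finset.sum_congr rfl
        intro i _
        simp only [g]
        ring
      simp_rw [this]
      rw [Finset.sum_comm]
      simp_rw [Finset.mul_sum]
    rw [h3]
    apply Finset.sum_le_sum
    intro i _
    calc x i * ∑ j, U i j * g j ≤ |x i * ∑ j, U i j * g j| := le_abs_self _
      _ = |x i| * |∑ j, U i j * g j| := abs_mul _ _
      _ ≤ 1 * |∑ j, U i j * g j| := mul_le_mul_of_nonneg_right (hx i) (abs_nonneg _)
      _ = _ := one_mul _
  rw [Finset.sum_comm]
  calc |∑ j, ∑ i, U i j * (x i * y j)| ≤ ∑ j, |∑ i, U i j * (x i * y j)| :=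
        Finset.abs_sum_le_sum_abs _ _
    _ ≤ ∑ j, |∑ i, U i j * x i| := by
        apply Finset.sum_le_sum
        intro j _
        have : ∑ i, U i j * (x i * y j) = (∑ i, U i j * x i) * y j := by
          rw [Finset.sum_mul]
          apply Finset.sum_congr rfl
          intro i _
          ring
        rw [this, abs_mul]
        calc |∑ i, U i j * x i| * |y j| ≤ |∑ i, U i j * x i| * 1 :=
              mul_le_mul_of_nonneg_left (hy j) (abs_nonneg _)
          _ = _ := mul_one _
    _ ≤ K := h2

/-- local simplicity of a matrix on windows of total size at most `r` -/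
def LocSimple {V : Type*} [DecidableEq V] (U : V → V → ℝ) (r : ℕ) : Prop :=
  ∀ I J : Finset V, I.card + J.card ≤ r → ∃ (p q : V → V) (u v : V → ℝ),
    (∀ i, |u i| ≤ 1) ∧ (∀ j, |v j| ≤ 1) ∧ ∀ i ∈ I, ∀ j ∈ J,
      U i j = (if p i = j then u i else 0) + (if q j = i then v j else 0)

lemma locSimple_of_cnt {D N r : ℕ} (π : Fin D × Fin D × Fin N → Fin N)
    (hπ : ∀ I J : Finset (Fin D × Fin N), I.card + J.card ≤ r → cnt π I J ≤ I.card + J.card)
    (ε : Fin D × Fin D × Fin N → ℝ) (hε : ∀ e, ε e = 1 ∨ ε e = -1) :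
    LocSimple (fun x y : Fin D × Fin N =>
      if π (x.1, y.1, x.2) = y.2 then ε (x.1, y.1, x.2) else 0) r := by
  classical
  intro I J hIJ
  let E := Fin D × Fin D × Fin N
  let s : E → Fin D × Fin N := fun e => (e.1, e.2.2)
  let t : E → Fin D × Fin N := fun e => (e.2.1, π e)
  let ι := {e : E // s e ∈ I ∧ t e ∈ J}
  let nb : ι → Finset ((Fin D × Fin N) ⊕ (Fin D × Fin N)) := fun e =>
    {Sum.inl (s e.1), Sum.inr (t e.1)}
  have hst : ∀ e e' : E, s e = s e' → t e = t e' → e = e' := by
    rintro ⟨a, b, i⟩ ⟨a', b', i'⟩ h1 h2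
    simp only [s, t, Prod.mk.injEq] at h1 h2
    rw [h1.1, h1.2, h2.1]
  have hall : ∀ S : Finset ι, S.card ≤ (S.biUnion nb).card := by
    intro S
    set I' := S.image (fun e => s e.1)
    set J' := S.image (fun e => t e.1)
    have hI' : I' ⊆ I := by
      intro x hx
      obtain ⟨e, -, rfl⟩ := Finset.mem_image.1 hx
      exact e.2.1
    have hJ' : J' ⊆ J := by
      intro x hx
      obtain ⟨e, -, rfl⟩ := Finset.mem_image.1 hx
      exact e.2.2
    have h1 : cnt π I' J' ≤ I'.card + J'.card :=
      hπ I' J' (le_trans (add_le_add (Finset.card_le_card hI') (Finset.card_le_card hJ')) hIJ)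
    have h2 : S.card ≤ cnt π I' J' := by
      unfold cnt
      apply Finset.card_le_card_of_injOn (fun e => e.1)
      · intro e he
        simp only [Finset.coe_filter, Finset.mem_univ, true_and, Set.mem_ofPred_eq]
        exact ⟨Finset.mem_image_of_mem (fun e : ι => s e.1) he,
          Finset.mem_image_of_mem (fun e : ι => t e.1) he⟩
      · intro e _ e' _ h
        exact Subtype.ext h
    have h3 : I'.card + J'.card ≤ (S.biUnion nb).card := by
      rw [← Finset.card_disjSum]
      apply Finset.card_le_card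
      intro x hx
      rcases Finset.mem_disjSum.1 hx with ⟨a, ha, rfl⟩ | ⟨a, ha, rfl⟩
      · obtain ⟨e, he, rfl⟩ := Finset.mem_image.1 ha
        exact Finset.mem_biUnion.2 ⟨e, he, by simp [nb]⟩
      · obtain ⟨e, he, rfl⟩ := Finset.mem_image.1 ha
        exact Finset.mem_biUnion.2 ⟨e, he, by simp [nb]⟩
    omega
  obtain ⟨h, hinj, hmem⟩ := (Finset.all_card_le_biUnion_card_iff_exists_injective nb).1 hall
  have hmem' : ∀ e : ι, h e = Sum.inl (s e.1) ∨ h e = Sum.inr (t e.1) := by
    intro e
    simpa [nb] using hmem e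
  have hp : ∀ x : Fin D × Fin N, ∃ (px : Fin D × Fin N) (ux : ℝ), |ux| ≤ 1 ∧
      (∀ e : ι, h e = Sum.inl x → t e.1 = px ∧ ε e.1 = ux) ∧
      ((∀ e : ι, h e ≠ Sum.inl x) → ux = 0) := by
    intro x
    by_cases hex : ∃ e : ι, h e = Sum.inl x
    · obtain ⟨e, he⟩ := hex
      refine ⟨t e.1, ε e.1, ?_, ?_, ?_⟩
      · rcases hε e.1 with h' | h' <;> simp [h']
      · intro e' he'
        rw [hinj (he'.trans he.symm)]
        exact ⟨rfl, rfl⟩
      · intro hno
        exact absurd he (hno e)
    · push Not at hex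
      exact ⟨x, 0, by simp, fun e he => absurd he (hex e), fun _ => rfl⟩
  have hq : ∀ y : Fin D × Fin N, ∃ (py : Fin D × Fin N) (uy : ℝ), |uy| ≤ 1 ∧
      (∀ e : ι, h e = Sum.inr y → s e.1 = py ∧ ε e.1 = uy) ∧
      ((∀ e : ι, h e ≠ Sum.inr y) → uy = 0) := by
    intro x
    by_cases hex : ∃ e : ι, h e = Sum.inr x
    · obtain ⟨e, he⟩ := hex
      refine ⟨s e.1, ε e.1, ?_, ?_, ?_⟩
      · rcases hε e.1 with h' | h' <;> simp [h']
      · intro e' he'
        rw [hinj (he'.trans he.symm)]
        exact ⟨rfl, rfl⟩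
      · intro hno
        exact absurd he (hno e)
    · push Not at hex
      exact ⟨x, 0, by simp, fun e he => absurd he (hex e), fun _ => rfl⟩
  choose p u hu hpu hp0 using hp
  choose q v hv hqv hq0 using hq
  refine ⟨p, q, u, v, hu, hv, ?_⟩
  intro x hx y hy
  dsimp only
  -- facts about the chosen edges
  have hA : ∀ e : ι, h e = Sum.inl x → s e.1 = x := by
    intro e he
    rcases hmem' e with h' | h'
    · rw [h'] at he
      exact Sum.inl.inj he
    · rw [h'] at he
      exact absurd he (by simp)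
  have hB : ∀ e : ι, h e = Sum.inr y → t e.1 = y := by
    intro e he
    rcases hmem' e with h' | h'
    · rw [h'] at he
      exact absurd he (by simp)
    · rw [h'] at he
      exact Sum.inr.inj he
  by_cases hedge : π (x.1, y.1, x.2) = y.2
  · -- the edge between x and y
    have hs : s (x.1, y.1, x.2) = x := rfl
    have ht : t (x.1, y.1, x.2) = y := by
      simp only [t, hedge]
    let e0 : ι := ⟨(x.1, y.1, x.2), by rw [hs, ht]; exact ⟨hx, hy⟩⟩
    have he0 : ∀ e : ι, s e.1 = x → t e.1 = y → e = e0 := by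
      intro e h1 h2
      exact Subtype.ext (hst _ _ (by rw [h1]) (by rw [h2]; exact ht.symm))
    rw [if_pos hedge]
    rcases hmem' e0 with h0 | h0
    · have h0' : h e0 = Sum.inl x := h0
      obtain ⟨h1, h2⟩ := hpu x e0 h0'
      have h3 : p x = y := by rw [← h1]; exact ht
      rw [if_pos h3, ← h2]
      by_cases hey : ∃ e : ι, h e = Sum.inr y
      · obtain ⟨e, he⟩ := hey
        obtain ⟨h4, h5⟩ := hqv y e he
        rw [if_neg]
        · simp [e0]
        · intro hcon
          have h6 := he0 e (h4.trans hcon) (hB _ he)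
          rw [h6, h0'] at he
          exact absurd he (by simp)
      · push Not at hey
        rw [hq0 y hey]
        simp [e0]
    · have h0' : h e0 = Sum.inr y := by rw [h0]; exact congrArg Sum.inr ht
      obtain ⟨h1, h2⟩ := hqv y e0 h0'
      have h3 : q y = x := by rw [← h1]
      rw [if_pos h3, ← h2]
      by_cases hex : ∃ e : ι, h e = Sum.inl x
      · obtain ⟨e, he⟩ := hex
        obtain ⟨h4, h5⟩ := hpu x e he
        rw [if_neg]
        · simp [e0]
        · intro hcon
          have h6 := he0 e (hA _ he) (h4.trans hcon)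
          rw [h6, h0'] at he
          exact absurd he (by simp)
      · push Not at hex
        rw [hp0 x hex]
        simp [e0]
  · rw [if_neg hedge]
    have hno : ∀ e : ι, s e.1 = x → t e.1 = y → False := by
      intro e h1 h2
      apply hedge
      have h3 : e.1 = (x.1, y.1, x.2) := by
        rw [← h1, ← h2]
      rw [← h3]
      rw [← h2]
    have h1 : (if p x = y then u x else 0) = 0 := by
      by_cases hex : ∃ e : ι, h e = Sum.inl x
      · obtain ⟨e, he⟩ := hex
        obtain ⟨h4, h5⟩ := hpu x e he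
        rw [if_neg]
        intro hcon
        exact hno e (hA _ he) (h4.trans hcon)
      · push Not at hex
        rw [hp0 x hex]
        simp
    have h2 : (if q y = x then v y else 0) = 0 := by
      by_cases hex : ∃ e : ι, h e = Sum.inr y
      · obtain ⟨e, he⟩ := hex
        obtain ⟨h4, h5⟩ := hqv y e he
        rw [if_neg]
        intro hcon
        exact hno e (h4.trans hcon) (hB _ he)
      · push Not at hex
        rw [hq0 y hex]
        simp
    rw [h1, h2, add_zero]

end Pool.Agent.H722R3
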