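import Pool.Agent.H722R3.Block

set_option autoImplicit false

namespace Pool.Agent.H722R3

open Finset

/-- the sum of the absolute values of the entries of a block of size `n` -/
noncomputable def tot (n : ℕ) (U : ℕ → ℕ → ℝ) : ℝ := ∑ i ∈ range n, ∑ j ∈ range n, |U i j|

/-- a block of size `n` with cut norm at most `δ` times its mass and simple on windows of size `r` -/
structure IsBlock (n : ℕ) (U : ℕ → ℕ → ℝ) (r : ℕ) (δ : ℝ) : Prop where
  val : ∀ i j, U i j = 0 ∨ U i j = 1 ∨ U i j = -1
  supp : ∀ i j, U i j ≠ 0 → i < n ∧ j < n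
  pos : 0 < tot n U
  cut : ∀ x y : ℕ → ℝ, (∀ i, |x i| ≤ 1) → (∀ j, |y j| ≤ 1) →
    |∑ i ∈ range n, ∑ j ∈ range n, U i j * (x i * y j)| ≤ δ * tot n U
  loc : LocSimple U r

lemma transport {V : Type} [Fintype V] [DecidableEq V] (U : V → V → ℝ) (r : ℕ) (δ : ℝ)
    (hval : ∀ i j, U i j = 0 ∨ U i j = 1 ∨ U i j = -1)
    (hpos : 0 < ∑ i, ∑ j, |U i j|)
    (hcut : ∀ (x y : V → ℝ), (∀ i, x i = 1 ∨ x i = -1) → (∀ j, y j = 1 ∨ y j = -1) →
      ∑ i, ∑ j, U i j * (x i * y j) ≤ δ * ∑ i, ∑ j, |U i j|)
    (hloc : LocSimple U r) : ∃ (n : ℕ) (U' : ℕ → ℕ → ℝ), IsBlock n U' r δ := by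
  classical
  set n := Fintype.card V with hn
  let e : V ≃ Fin n := Fintype.equivFin V
  let U' : ℕ → ℕ → ℝ := fun i j =>
    if h : i < n ∧ j < n then U (e.symm ⟨i, h.1⟩) (e.symm ⟨j, h.2⟩) else 0
  have hU' : ∀ x y : V, U' (e x) (e y) = U x y := by
    intro x y
    simp only [U']
    rw [dif_pos ⟨(e x).2, (e y).2⟩]
    simp
  have hsum : ∀ f : ℕ → ℕ → ℝ, ∑ i ∈ range n, ∑ j ∈ range n, f i j = ∑ x : V, ∑ y : V, f (e x) (e y) := by
    intro f
    rw [Finset.sum_range]
    rw [← Equiv.sum_comp e (fun i : Fin n => ∑ j ∈ range n, f i j)]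
    apply Finset.sum_congr rfl
    intro x _
    rw [Finset.sum_range]
    rw [← Equiv.sum_comp e (fun j : Fin n => f (e x) j)]
  have htot : tot n U' = ∑ i, ∑ j, |U i j| := by
    unfold tot
    rw [hsum]
    simp_rw [hU']
  refine ⟨n, U', ?_, ?_, ?_, ?_, ?_⟩
  · intro i j
    simp only [U']
    split_ifs
    · exact hval _ _
    · exact Or.inl rfl
  · intro i j h
    by_contra hcon
    exact h (dif_neg hcon)
  · rw [htot]; exact hpos
  · intro x y hx hy
    rw [htot, hsum]
    simp_rw [hU']
    exact cube_of_sign U _ hcut (fun i => x (e i)) (fun j => y (e j)) (fun i => hx _) (fun j => hy _)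
  · intro I J hIJ
    set I0 : Finset V := Finset.univ.filter fun x => ((e x : Fin n) : ℕ) ∈ I
    set J0 : Finset V := Finset.univ.filter fun x => ((e x : Fin n) : ℕ) ∈ J
    have hI0 : I0.card ≤ I.card := by
      apply Finset.card_le_card_of_injOn (fun x => ((e x : Fin n) : ℕ))
      · intro x hx
        simpa [I0] using hx
      · intro x _ y _ h
        exact e.injective (Fin.ext h)
    have hJ0 : J0.card ≤ J.card := by
      apply Finset.card_le_card_of_injOn (fun x => ((e x : Fin n) : ℕ))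
      · intro x hx
        simpa [J0] using hx
      · intro x _ y _ h
        exact e.injective (Fin.ext h)
    obtain ⟨p, q, u, v, hu, hv, huv⟩ := hloc I0 J0 (le_trans (add_le_add hI0 hJ0) hIJ)
    refine ⟨fun i => if h : i < n then (e (p (e.symm ⟨i, h⟩)) : ℕ) else 0,
      fun i => if h : i < n then (e (q (e.symm ⟨i, h⟩)) : ℕ) else 0,
      fun i => if h : i < n then u (e.symm ⟨i, h⟩) else 0,
      fun i => if h : i < n then v (e.symm ⟨i, h⟩) else 0, ?_, ?_, ?_⟩
    · intro i
      dsimp only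
      split_ifs
      · exact hu _
      · simp
    · intro i
      dsimp only
      split_ifs
      · exact hv _
      · simp
    · intro i hi j hj
      dsimp only
      by_cases h1 : i < n
      · by_cases h2 : j < n
        · simp only [U', h1, h2, and_self, dite_true]
          have h3 := huv (e.symm ⟨i, h1⟩) (by simp [I0, hi]) (e.symm ⟨j, h2⟩) (by simp [J0, hj])
          rw [h3]
          have h4 : (p (e.symm ⟨i, h1⟩) = e.symm ⟨j, h2⟩) ↔ ((e (p (e.symm ⟨i, h1⟩)) : ℕ) = j) := by
            rw [← e.apply_eq_iff_eq_symm_apply, Fin.ext_iff]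
          have h5 : (q (e.symm ⟨j, h2⟩) = e.symm ⟨i, h1⟩) ↔ ((e (q (e.symm ⟨j, h2⟩)) : ℕ) = i) := by
            rw [← e.apply_eq_iff_eq_symm_apply, Fin.ext_iff]
          simp only [h4, h5]
        · simp only [U', h1, h2, and_false, dite_false, dite_true]
          have h6 : ((e (p (e.symm ⟨i, h1⟩)) : Fin n) : ℕ) ≠ j := by
            have := (e (p (e.symm ⟨i, h1⟩))).2
            omega
          simp [h6]
      · by_cases h2 : j < n
        · simp only [U', h1, h2, false_and, dite_false, dite_true]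
          have h6 : ((e (q (e.symm ⟨j, h2⟩)) : Fin n) : ℕ) ≠ i := by
            have := (e (q (e.symm ⟨j, h2⟩))).2
            omega
          simp [h6]
        · simp [U', h1, h2]

theorem exists_block (r : ℕ) (δ : ℝ) (hδ : 0 < δ) :
    ∃ (n : ℕ) (U : ℕ → ℕ → ℝ), IsBlock n U r δ := by
  classical
  obtain ⟨D, hD⟩ := exists_nat_gt (max 1 (4 / δ ^ 2))
  have hD1 : (1 : ℝ) < D := (le_max_left _ _).trans_lt hD
  have hD2 : 4 / δ ^ 2 < D := (le_max_right _ _).trans_lt hD
  have hD3 : 4 < D * δ ^ 2 := by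
    rwa [div_lt_iff₀ (by positivity)] at hD2
  have hD0 : 0 < D := by
    have : (0 : ℝ) < D := by linarith
    exact_mod_cast this
  obtain ⟨N, hN, π, hπ⟩ := exists_map D r
  have hN' : (1 : ℝ) ≤ N := by exact_mod_cast hN
  let s : Fin D × Fin D × Fin N → Fin D × Fin N := fun e => (e.1, e.2.2)
  let t : Fin D × Fin D × Fin N → Fin D × Fin N := fun e => (e.2.1, π e)
  obtain ⟨ε, hε, hcut⟩ := exists_signs s t δ hδ (by
    simp only [Fintype.card_prod, Fintype.card_fin]
    push_cast
    have hl : Real.log 2 ≤ 1 := by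
      have := Real.log_two_lt_d9
      linarith
    have hl0 : 0 ≤ Real.log 2 := Real.log_nonneg (by norm_num)
    have h1 : ((D : ℝ) * N + D * N) * Real.log 2 ≤ ((D : ℝ) * N + D * N) * 1 :=
      mul_le_mul_of_nonneg_left hl (by positivity)
    have h2 : (4 : ℝ) * (D * N) ≤ (D * δ ^ 2) * (D * N) :=
      mul_le_mul_of_nonneg_right hD3.le (by positivity)
    nlinarith)
  let U : Fin D × Fin N → Fin D × Fin N → ℝ := fun x y =>
    if π (x.1, y.1, x.2) = y.2 then ε (x.1, y.1, x.2) else 0
  -- sums over pairs of vertices are sums over edges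
  have hsum : ∀ F : Fin D × Fin N → Fin D × Fin N → ℝ,
      ∑ x, ∑ y : Fin D × Fin N, (if π (x.1, y.1, x.2) = y.2 then F x y else 0) = ∑ e, F (s e) (t e) := by
    intro F
    simp only [Fintype.sum_prod_type]
    apply Finset.sum_congr rfl
    intro a _
    rw [Finset.sum_comm]
    apply Finset.sum_congr rfl
    intro b _
    apply Finset.sum_congr rfl
    intro i _
    simp [s, t]
  have htot : ∑ x, ∑ y, |U x y| = Fintype.card (Fin D × Fin D × Fin N) := by
    have h1 := hsum (fun x y => |ε (x.1, y.1, x.2)|)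
    have h2 : ∀ x y : Fin D × Fin N, |U x y| =
        (if π (x.1, y.1, x.2) = y.2 then |ε (x.1, y.1, x.2)| else 0) := by
      intro x y
      simp only [U]
      split_ifs <;> simp
    simp_rw [h2]
    rw [h1]
    have h3 : ∀ e : Fin D × Fin D × Fin N, |ε e| = 1 := by
      intro e
      rcases hε e with h | h <;> simp [h]
    simp [h3]
  apply transport U r δ
  · intro x y
    simp only [U]
    split_ifs
    · exact Or.inr (hε _)
    · exact Or.inl rfl
  · rw [htot]
    have : 0 < Fintype.card (Fin D × Fin D × Fin N) := by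
      simp only [Fintype.card_prod, Fintype.card_fin]
      positivity
    exact_mod_cast this
  · intro x y hx hy
    rw [htot]
    refine le_trans (le_of_eq ?_) (hcut x y hx hy)
    have h1 := hsum (fun i j => ε (i.1, j.1, i.2) * (x i * y j))
    have h2 : ∀ i j : Fin D × Fin N, U i j * (x i * y j) =
        (if π (i.1, j.1, i.2) = j.2 then ε (i.1, j.1, i.2) * (x i * y j) else 0) := by
      intro i j
      simp only [U]
      split_ifs <;> simp
    simp_rw [h2]
    rw [h1]
  · exact locSimple_of_cnt π hπ ε hε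

end Pool.Agent.H722R3
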