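import Pool.Agent.H722R3.Master

set_option autoImplicit false

namespace Pool.Agent.H722R3

open Finset

/-- positions in the blocks before the `n`-th -/
noncomputable def pos (n : ℕ) : Finset (Σ _ : ℕ, ℕ × ℕ) :=
  (range n).sigma fun b => range (bN b) ×ˢ range (bN b)

lemma card_pos (n : ℕ) : (pos n).card ≤ W n := by
  unfold pos
  rw [Finset.card_sigma]
  refine le_trans (le_of_eq ?_) (sum_sq_le_W n)
  apply Finset.sum_congr rfl
  intro b _
  rw [Finset.card_product, Finset.card_range]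
  ring

lemma T_expand {M : Set ℕ} {n : ℕ} (hM : ∀ m ∈ M, m < n) (k l : ℕ) :
    T M k l = ∑ s ∈ pos n, T M (Nat.pair s.1 s.2.1) (Nat.pair s.1 s.2.2) *
      ((if k = Nat.pair s.1 s.2.1 then 1 else 0) * (if l = Nat.pair s.1 s.2.2 then 1 else 0)) := by
  classical
  by_cases hT : T M k l = 0
  · rw [hT]
    symm
    apply Finset.sum_eq_zero
    rintro ⟨b, i, j⟩ _
    dsimp only
    by_cases h1 : k = Nat.pair b i
    · by_cases h2 : l = Nat.pair b j
      · rw [← h1, ← h2, hT, zero_mul]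
      · simp [h2]
    · simp [h1]
  · have h1 : k.unpair.1 = l.unpair.1 ∧ k.unpair.1 ∈ M := by
      by_contra hcon
      exact hT (by unfold T; rw [if_neg hcon])
    have h2 : bU k.unpair.1 k.unpair.2 l.unpair.2 ≠ 0 := by
      intro hcon
      apply hT
      unfold T; rw [if_pos h1, hcon]
    have h3 := (b_spec k.unpair.1).supp _ _ h2
    have hk : Nat.pair k.unpair.1 k.unpair.2 = k := Nat.pair_unpair k
    have hl : Nat.pair k.unpair.1 l.unpair.2 = l := by rw [h1.1]; exact Nat.pair_unpair l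
    rw [Finset.sum_eq_single (⟨k.unpair.1, (k.unpair.2, l.unpair.2)⟩ : Σ _ : ℕ, ℕ × ℕ)]
    · dsimp only
      rw [hk, hl]
      simp
    · rintro ⟨b, i, j⟩ _ hne
      dsimp only
      by_cases h4 : k = Nat.pair b i
      · by_cases h5 : l = Nat.pair b j
        · exfalso
          apply hne
          subst h4
          have h6 : l.unpair.2 = j := by rw [h5]; simp
          simp [h6]
        · simp [h5]
      · simp [h4]
    · intro hcon
      exfalso
      apply hcon
      unfold pos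
      rw [Finset.mem_sigma]
      refine ⟨Finset.mem_range.2 (hM _ h1.2), ?_⟩
      rw [Finset.mem_product]
      exact ⟨Finset.mem_range.2 h3.1, Finset.mem_range.2 h3.2⟩

lemma est_low {M : Set ℕ} {n : ℕ} (hM : ∀ m ∈ M, m < n) {N : ℕ} {U : ℕ → ℕ → ℝ} {K : ℝ}
    (hU : ∀ x y : ℕ → ℝ, (∀ i, |x i| ≤ 1) → (∀ j, |y j| ≤ 1) →
      |∑ i ∈ range N, ∑ j ∈ range N, U i j * (x i * y j)| ≤ K)
    (k l : ℕ → ℕ) (x y : ℕ → ℝ) (hx : ∀ i, |x i| ≤ 1) (hy : ∀ j, |y j| ≤ 1) :
    |∑ i ∈ range N, ∑ j ∈ range N, U i j * (x i * y j * T M (k i) (l j))| ≤ W n * K := by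
  classical
  have hK : 0 ≤ K := le_trans (abs_nonneg _) (hU x y hx hy)
  have h1 : ∑ i ∈ range N, ∑ j ∈ range N, U i j * (x i * y j * T M (k i) (l j)) =
      ∑ s ∈ pos n, T M (Nat.pair s.1 s.2.1) (Nat.pair s.1 s.2.2) *
        ∑ i ∈ range N, ∑ j ∈ range N, U i j *
          ((x i * (if k i = Nat.pair s.1 s.2.1 then 1 else 0)) *
            (y j * (if l j = Nat.pair s.1 s.2.2 then 1 else 0))) := by
    have h2 : ∀ i j, U i j * (x i * y j * T M (k i) (l j)) =
        ∑ s ∈ pos n, T M (Nat.pair s.1 s.2.1) (Nat.pair s.1 s.2.2) * (U i j *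
          ((x i * (if k i = Nat.pair s.1 s.2.1 then 1 else 0)) *
            (y j * (if l j = Nat.pair s.1 s.2.2 then 1 else 0)))) := by
      intro i j
      rw [T_expand hM (k i) (l j), Finset.mul_sum, Finset.mul_sum]
      apply Finset.sum_congr rfl
      intro s _
      ring
    simp_rw [h2]
    simp_rw [Finset.mul_sum]
    rw [Finset.sum_congr rfl (fun i _ => Finset.sum_comm), Finset.sum_comm]
  rw [h1]
  calc |∑ s ∈ pos n, T M (Nat.pair s.1 s.2.1) (Nat.pair s.1 s.2.2) *
        ∑ i ∈ range N, ∑ j ∈ range N, U i j *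
          ((x i * (if k i = Nat.pair s.1 s.2.1 then 1 else 0)) *
            (y j * (if l j = Nat.pair s.1 s.2.2 then 1 else 0)))|
      ≤ ∑ s ∈ pos n, |T M (Nat.pair s.1 s.2.1) (Nat.pair s.1 s.2.2) *
        ∑ i ∈ range N, ∑ j ∈ range N, U i j *
          ((x i * (if k i = Nat.pair s.1 s.2.1 then 1 else 0)) *
            (y j * (if l j = Nat.pair s.1 s.2.2 then 1 else 0)))| := Finset.abs_sum_le_sum_abs _ _
    _ ≤ ∑ s ∈ pos n, K := by
        apply Finset.sum_le_sum
        intro s _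
        rw [abs_mul]
        have h3 := hU (fun i => x i * (if k i = Nat.pair s.1 s.2.1 then 1 else 0))
          (fun j => y j * (if l j = Nat.pair s.1 s.2.2 then 1 else 0))
          (fun i => by
            split_ifs
            · rw [mul_one]; exact hx i
            · simp)
          (fun j => by
            split_ifs
            · rw [mul_one]; exact hy j
            · simp)
        calc _ ≤ 1 * K := mul_le_mul (T_abs M _ _) h3 (abs_nonneg _) (by norm_num)
          _ = K := one_mul K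
    _ = (pos n).card * K := by rw [Finset.sum_const, nsmul_eq_mul]
    _ ≤ W n * K := by
        apply mul_le_mul_of_nonneg_right _ hK
        exact_mod_cast card_pos n

/-- the main estimate: a block outside `M` is almost orthogonal to all windows of `T M` -/
lemma est {M : Set ℕ} {n : ℕ} (hn : n ∉ M) (k l : ℕ → ℕ) (x y : ℕ → ℝ)
    (hx : ∀ i, |x i| ≤ 1) (hy : ∀ j, |y j| ≤ 1) :
    |∑ i ∈ range (bN n), ∑ j ∈ range (bN n), bU n i j * (x i * y j * T M (k i) (l j))| ≤
      1 / (n + 1) * tot (bN n) (bU n) := by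
  classical
  have hspec := b_spec n
  set K := dl n * tot (bN n) (bU n) with hK
  have hU := hspec.cut
  have hsplit : ∀ k l : ℕ, T M k l = T {m | m ∈ M ∧ m < n} k l + T {m | m ∈ M ∧ n < m} k l := by
    intro k l
    unfold T
    by_cases hkl : k.unpair.1 = l.unpair.1
    · by_cases hM : k.unpair.1 ∈ M
      · rcases lt_trichotomy k.unpair.1 n with h | h | h
        · have e1 : (k.unpair.1 = l.unpair.1 ∧ k.unpair.1 ∈ {m | m ∈ M ∧ m < n}) := ⟨hkl, hM, h⟩
          have e2 : ¬ (k.unpair.1 = l.unpair.1 ∧ k.unpair.1 ∈ {m | m ∈ M ∧ n < m}) := by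
            intro hc
            have h5 : n < k.unpair.1 := hc.2.2
            omega
          rw [if_pos ⟨hkl, hM⟩, if_pos e1, if_neg e2, add_zero]
        · exact absurd (h ▸ hM) hn
        · have e1 : ¬ (k.unpair.1 = l.unpair.1 ∧ k.unpair.1 ∈ {m | m ∈ M ∧ m < n}) := by
            intro hc
            have h5 : k.unpair.1 < n := hc.2.2
            omega
          have e2 : (k.unpair.1 = l.unpair.1 ∧ k.unpair.1 ∈ {m | m ∈ M ∧ n < m}) := ⟨hkl, hM, h⟩
          rw [if_pos ⟨hkl, hM⟩, if_neg e1, if_pos e2, zero_add]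
      · have e0 : ¬ (k.unpair.1 = l.unpair.1 ∧ k.unpair.1 ∈ M) := fun hc => hM hc.2
        have e1 : ¬ (k.unpair.1 = l.unpair.1 ∧ k.unpair.1 ∈ {m | m ∈ M ∧ m < n}) :=
          fun hc => hM hc.2.1
        have e2 : ¬ (k.unpair.1 = l.unpair.1 ∧ k.unpair.1 ∈ {m | m ∈ M ∧ n < m}) :=
          fun hc => hM hc.2.1
        rw [if_neg e0, if_neg e1, if_neg e2, zero_add]
    · have e0 : ¬ (k.unpair.1 = l.unpair.1 ∧ k.unpair.1 ∈ M) := fun hc => hkl hc.1
      have e1 : ¬ (k.unpair.1 = l.unpair.1 ∧ k.unpair.1 ∈ {m | m ∈ M ∧ m < n}) :=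
        fun hc => hkl hc.1
      have e2 : ¬ (k.unpair.1 = l.unpair.1 ∧ k.unpair.1 ∈ {m | m ∈ M ∧ n < m}) :=
        fun hc => hkl hc.1
      rw [if_neg e0, if_neg e1, if_neg e2, zero_add]
  have h1 := est_low (M := {m | m ∈ M ∧ m < n}) (n := n) (fun m hm => hm.2) hU k l x y hx hy
  have h2 := window hU (T {m | m ∈ M ∧ n < m})
    (T_locSimple _ _ (fun m hm => ((b_spec m).loc).mono
      (Nat.mul_le_mul_left 2 (bN_le_W hm.2)))) k l x y hx hy
  have h3 : ∑ i ∈ range (bN n), ∑ j ∈ range (bN n), bU n i j * (x i * y j * T M (k i) (l j)) =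
      ∑ i ∈ range (bN n), ∑ j ∈ range (bN n),
        bU n i j * (x i * y j * T {m | m ∈ M ∧ m < n} (k i) (l j)) +
      ∑ i ∈ range (bN n), ∑ j ∈ range (bN n),
        bU n i j * (x i * y j * T {m | m ∈ M ∧ n < m} (k i) (l j)) := by
    rw [← Finset.sum_add_distrib]
    apply Finset.sum_congr rfl
    intro i _
    rw [← Finset.sum_add_distrib]
    apply Finset.sum_congr rfl
    intro j _
    rw [hsplit]
    ring
  rw [h3]
  refine (abs_add_le _ _).trans ((add_le_add h1 h2).trans ?_)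
  have h4 : (W n : ℝ) * K + 2 * K = ((W n + 2 : ℝ) * dl n) * tot (bN n) (bU n) := by
    rw [hK]; ring
  rw [h4]
  exact mul_le_mul_of_nonneg_right (dl_bound n) hspec.pos.le

end Pool.Agent.H722R3
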