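import Pool.Agent.H722R3.Ops

set_option autoImplicit false

namespace Pool.Agent.H722R3

open Finset Filter Topology

lemma sum_norm_c0 {N : ℕ} {K : ℝ} (v : ℕ → C0)
    (h : ∀ (k : ℕ → ℕ) (x : ℕ → ℝ), (∀ i, |x i| ≤ 1) → |∑ i ∈ range N, x i * v i (k i)| ≤ K) :
    ∑ i ∈ range N, ‖v i‖ ≤ K := by
  apply le_of_forall_pos_le_add
  intro η hη
  have hη' : 0 < η / (N + 1 : ℝ) := by positivity
  have h1 : ∀ i, ∃ k, ‖v i‖ - η / (N + 1 : ℝ) < |v i k| := fun i => c0_exists (v i) (by linarith)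
  choose k hk using h1
  have h2 := (le_abs_self _).trans (h k (fun i => sgr (v i (k i))) (fun i => sgr_abs _))
  have h3 : ∑ i ∈ range N, ‖v i‖ ≤ ∑ i ∈ range N, (sgr (v i (k i)) * v i (k i) + η / (N + 1 : ℝ)) := by
    apply Finset.sum_le_sum
    intro i _
    rw [sgr_mul]
    linarith [hk i]
  rw [Finset.sum_add_distrib, Finset.sum_const, Finset.card_range, nsmul_eq_mul] at h3
  have h4 : (N : ℝ) * (η / (N + 1 : ℝ)) ≤ η := by
    rw [mul_div_assoc', div_le_iff₀ (by positivity)]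
    nlinarith
  linarith

lemma sum_norm_dual {N : ℕ} {K : ℝ} (ψ : ℕ → (L1 →L[ℝ] ℝ))
    (h : ∀ (l : ℕ → ℕ) (y : ℕ → ℝ), (∀ j, |y j| ≤ 1) → |∑ j ∈ range N, y j * ψ j (ev (l j))| ≤ K) :
    ∑ j ∈ range N, ‖ψ j‖ ≤ K := by
  apply le_of_forall_pos_le_add
  intro η hη
  have hη' : 0 < η / (N + 1 : ℝ) := by positivity
  have h1 : ∀ j, ∃ l, ‖ψ j‖ - η / (N + 1 : ℝ) < |ψ j (ev l)| := fun j => l1_exists (ψ j) (by linarith)
  choose l hl using h1
  have h2 := (le_abs_self _).trans (h l (fun j => sgr (ψ j (ev (l j)))) (fun i => sgr_abs _))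
  have h3 : ∑ j ∈ range N, ‖ψ j‖ ≤
      ∑ j ∈ range N, (sgr (ψ j (ev (l j))) * ψ j (ev (l j)) + η / (N + 1 : ℝ)) := by
    apply Finset.sum_le_sum
    intro j _
    rw [sgr_mul]
    linarith [hl j]
  rw [Finset.sum_add_distrib, Finset.sum_const, Finset.card_range, nsmul_eq_mul] at h3
  have h4 : (N : ℝ) * (η / (N + 1 : ℝ)) ≤ η := by
    rw [mul_div_assoc', div_le_iff₀ (by positivity)]
    nlinarith
  linarith

/-- evaluation at `k` as a functional on `c₀` -/
noncomputable def evalC (k : ℕ) : C0 →L[ℝ] ℝ :=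
  LinearMap.mkContinuous
    { toFun := fun f => f k
      map_add' := fun f g => rfl
      map_smul' := fun c f => rfl }
    1 (by
      intro f
      rw [one_mul]
      exact c0_coord f k)

lemma evalC_apply (k : ℕ) (f : C0) : evalC k f = f k := rfl

lemma evalC_norm (k : ℕ) : ‖evalC k‖ ≤ 1 :=
  LinearMap.mkContinuous_norm_le _ zero_le_one _

/-- from windows of the matrix of `S` to general functionals and vectors -/
lemma ext_bound {N : ℕ} {U : ℕ → ℕ → ℝ} {K b a : ℝ} (hb : 0 ≤ b) (ha : 0 ≤ a) (S : L1 →L[ℝ] C0)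
    (h : ∀ (k l : ℕ → ℕ) (x y : ℕ → ℝ), (∀ i, |x i| ≤ 1) → (∀ j, |y j| ≤ 1) →
      |∑ i ∈ range N, ∑ j ∈ range N, U i j * (x i * y j * S (ev (l j)) (k i))| ≤ K)
    (φ : ℕ → (C0 →L[ℝ] ℝ)) (hφ : ∀ i, ‖φ i‖ ≤ b) (w : ℕ → L1) (hw : ∀ j, ‖w j‖ ≤ a) :
    |∑ i ∈ range N, ∑ j ∈ range N, U i j * φ i (S (w j))| ≤ K * b * a := by
  have hK : 0 ≤ K := (abs_nonneg _).trans (h id id 0 0 (by simp) (by simp))
  -- first step
  have step1 : ∀ (l : ℕ → ℕ) (y : ℕ → ℝ), (∀ j, |y j| ≤ 1) →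
      |∑ i ∈ range N, φ i (∑ j ∈ range N, (U i j * y j) • S (ev (l j)))| ≤ K * b := by
    intro l y hy
    set v : ℕ → C0 := fun i => ∑ j ∈ range N, (U i j * y j) • S (ev (l j))
    have h1 : ∑ i ∈ range N, ‖v i‖ ≤ K := by
      apply sum_norm_c0
      intro k x hx
      refine le_trans (le_of_eq ?_) (h k l x y hx hy)
      congr 1
      apply Finset.sum_congr rfl
      intro i _
      have h2 : v i (k i) = ∑ j ∈ range N, (U i j * y j) * S (ev (l j)) (k i) := by
        rw [← evalC_apply]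
        simp only [v, map_sum, map_smul, smul_eq_mul, evalC_apply]
      rw [h2, Finset.mul_sum]
      apply Finset.sum_congr rfl
      intro j _
      ring
    calc |∑ i ∈ range N, φ i (v i)| ≤ ∑ i ∈ range N, |φ i (v i)| := Finset.abs_sum_le_sum_abs _ _
      _ ≤ ∑ i ∈ range N, b * ‖v i‖ := by
          apply Finset.sum_le_sum
          intro i _
          exact ((φ i).le_opNorm (v i)).trans (mul_le_mul_of_nonneg_right (hφ i) (norm_nonneg _))
      _ = b * ∑ i ∈ range N, ‖v i‖ := by rw [Finset.mul_sum]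
      _ ≤ b * K := mul_le_mul_of_nonneg_left h1 hb
      _ = K * b := mul_comm _ _
  -- second step
  let ψ : ℕ → (L1 →L[ℝ] ℝ) := fun j => ∑ i ∈ range N, U i j • ((φ i).comp S)
  have hψ : ∀ j z, ψ j z = ∑ i ∈ range N, U i j * φ i (S z) := by
    intro j z
    simp [ψ]
  have step2 : ∑ j ∈ range N, ‖ψ j‖ ≤ K * b := by
    apply sum_norm_dual
    intro l y hy
    refine le_trans (le_of_eq ?_) (step1 l y hy)
    congr 1
    simp_rw [hψ, map_sum, map_smul, Finset.mul_sum]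
    rw [Finset.sum_comm]
    apply Finset.sum_congr rfl
    intro i _
    apply Finset.sum_congr rfl
    intro j _
    rw [smul_eq_mul]
    ring
  have h5 : ∑ i ∈ range N, ∑ j ∈ range N, U i j * φ i (S (w j)) = ∑ j ∈ range N, ψ j (w j) := by
    simp_rw [hψ]
    rw [Finset.sum_comm]
  rw [h5]
  calc |∑ j ∈ range N, ψ j (w j)| ≤ ∑ j ∈ range N, |ψ j (w j)| := Finset.abs_sum_le_sum_abs _ _
    _ ≤ ∑ j ∈ range N, ‖ψ j‖ * a := by
        apply Finset.sum_le_sum
        intro j _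
        exact ((ψ j).le_opNorm (w j)).trans (mul_le_mul_of_nonneg_left (hw j) (norm_nonneg _))
    _ = (∑ j ∈ range N, ‖ψ j‖) * a := by rw [Finset.sum_mul]
    _ ≤ K * b * a := mul_le_mul_of_nonneg_right step2 ha

/-- the dual witness for the `n`-th block -/
noncomputable def Phi (n : ℕ) (X : L1 →L[ℝ] C0) : ℝ :=
  (∑ i ∈ range (bN n), ∑ j ∈ range (bN n),
    bU n i j * evalC (Nat.pair n i) (X (ev (Nat.pair n j)))) / tot (bN n) (bU n)

lemma Phi_add (n : ℕ) (X Y : L1 →L[ℝ] C0) : Phi n (X + Y) = Phi n X + Phi n Y := by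
  unfold Phi
  rw [← add_div, ← Finset.sum_add_distrib]
  congr 1
  apply Finset.sum_congr rfl
  intro i _
  rw [← Finset.sum_add_distrib]
  apply Finset.sum_congr rfl
  intro j _
  rw [add_apply, map_add, mul_add]

lemma Phi_smul (n : ℕ) (c : ℝ) (X : L1 →L[ℝ] C0) : Phi n (c • X) = c * Phi n X := by
  unfold Phi
  rw [mul_div_assoc', Finset.mul_sum]
  congr 1
  apply Finset.sum_congr rfl
  intro i _
  rw [Finset.mul_sum]
  apply Finset.sum_congr rfl
  intro j _
  rw [smul_apply, map_smul, smul_eq_mul]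
  ring

lemma Phi_norm (n : ℕ) (X : L1 →L[ℝ] C0) : |Phi n X| ≤ ‖X‖ := by
  have hpos := (b_spec n).pos
  unfold Phi
  rw [abs_div, abs_of_pos hpos, div_le_iff₀ hpos]
  unfold tot
  rw [Finset.mul_sum]
  refine (Finset.abs_sum_le_sum_abs _ _).trans (Finset.sum_le_sum fun i _ => ?_)
  rw [Finset.mul_sum]
  refine (Finset.abs_sum_le_sum_abs _ _).trans (Finset.sum_le_sum fun j _ => ?_)
  rw [abs_mul, mul_comm ‖X‖]
  apply mul_le_mul_of_nonneg_left _ (abs_nonneg _)
  have h1 : |evalC (Nat.pair n i) (X (ev (Nat.pair n j)))| ≤ ‖X (ev (Nat.pair n j))‖ := c0_coord _ _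
  have h2 := X.le_opNorm (ev (Nat.pair n j))
  rw [ev_norm, mul_one] at h2
  exact h1.trans h2

lemma Phi_opT {n : ℕ} {M : Set ℕ} (hn : n ∈ M) : Phi n (opT M) = 1 := by
  have hpos := (b_spec n).pos
  unfold Phi
  rw [div_eq_one_iff_eq hpos.ne']
  unfold tot
  apply Finset.sum_congr rfl
  intro i _
  apply Finset.sum_congr rfl
  intro j _
  rw [opT_ev, evalC_apply, col_apply, T_pair hn]
  rcases (b_spec n).val i j with h | h | h <;> simp [h]

lemma Phi_comp {n : ℕ} {M : Set ℕ} (hn : n ∉ M) (A : L1 →L[ℝ] L1) (B : C0 →L[ℝ] C0) :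
    |Phi n (B.comp ((opT M).comp A))| ≤ 1 / (n + 1) * ‖B‖ * ‖A‖ := by
  have hpos := (b_spec n).pos
  have h := ext_bound (N := bN n) (U := bU n) (K := 1 / (n + 1) * tot (bN n) (bU n))
    (norm_nonneg B) (norm_nonneg A) (opT M)
    (fun k l x y hx hy => by
      have h1 := est hn k l x y hx hy
      refine le_trans (le_of_eq ?_) h1
      congr 1
      apply Finset.sum_congr rfl
      intro i _
      apply Finset.sum_congr rfl
      intro j _
      rw [opT_ev, col_apply])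
    (fun i => (evalC (Nat.pair n i)).comp B)
    (fun i => by
      refine (ContinuousLinearMap.opNorm_comp_le _ _).trans ?_
      calc ‖evalC (Nat.pair n i)‖ * ‖B‖ ≤ 1 * ‖B‖ :=
            mul_le_mul_of_nonneg_right (evalC_norm _) (norm_nonneg B)
        _ = ‖B‖ := one_mul _)
    (fun j => A (ev (Nat.pair n j)))
    (fun j => by
      have := A.le_opNorm (ev (Nat.pair n j))
      rwa [ev_norm, mul_one] at this)
  unfold Phi
  rw [abs_div, abs_of_pos hpos, div_le_iff₀ hpos]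
  refine le_trans (le_of_eq ?_) (h.trans (le_of_eq ?_))
  · rfl
  · ring

instance instContinuousAddOp : ContinuousAdd (L1 →L[ℝ] C0) := by
  have h : IsTopologicalAddGroup (L1 →L[ℝ] C0) := inferInstance
  exact ⟨h.continuous_add⟩

/-- the closed ideal generated by `opT M` -/
noncomputable def J (M : Set ℕ) : Submodule ℝ (L1 →L[ℝ] C0) :=
  (Submodule.span ℝ {X | ∃ (A : L1 →L[ℝ] L1) (B : C0 →L[ℝ] C0),
    X = B.comp ((opT M).comp A)}).topologicalClosure

lemma J_closed (M : Set ℕ) : IsClosed (J M : Set (L1 →L[ℝ] C0)) :=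
  Submodule.isClosed_topologicalClosure _

lemma J_self (M : Set ℕ) : opT M ∈ J M := by
  apply Submodule.le_topologicalClosure
  apply Submodule.subset_span
  exact ⟨ContinuousLinearMap.id ℝ _, ContinuousLinearMap.id ℝ _, by ext; rfl⟩

lemma J_ideal (M : Set ℕ) (X : L1 →L[ℝ] C0) (hX : X ∈ J M) (A : L1 →L[ℝ] L1) (B : C0 →L[ℝ] C0) :
    B.comp (X.comp A) ∈ J M := by
  have hcont : Continuous fun X : L1 →L[ℝ] C0 => B.comp (X.comp A) := by
    have h1 : Continuous fun X : L1 →L[ℝ] C0 => X.comp A :=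
      ((ContinuousLinearMap.compL ℝ L1 L1 C0).flip A).continuous
    exact ((ContinuousLinearMap.compL ℝ L1 C0 C0) B).continuous.comp h1
  refine map_mem_closure (f := fun X : L1 →L[ℝ] C0 => B.comp (X.comp A)) hcont hX ?_
  intro Y hY
  show B.comp (Y.comp A) ∈ Submodule.span ℝ {X | ∃ (A : L1 →L[ℝ] L1) (B : C0 →L[ℝ] C0),
    X = B.comp ((opT M).comp A)}
  refine Submodule.span_induction (p := fun Y _ => B.comp (Y.comp A) ∈ Submodule.span ℝ
    {X | ∃ (A : L1 →L[ℝ] L1) (B : C0 →L[ℝ] C0), X = B.comp ((opT M).comp A)}) ?_ ?_ ?_ ?_ hY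
  · rintro _ ⟨A', B', rfl⟩
    apply Submodule.subset_span
    exact ⟨A'.comp A, B.comp B', by ext; rfl⟩
  · simp
  · intro Y Z _ _ h1 h2
    have : B.comp ((Y + Z).comp A) = B.comp (Y.comp A) + B.comp (Z.comp A) := by
      ext; simp
    rw [this]
    exact Submodule.add_mem _ h1 h2
  · intro c Y _ h1
    have : B.comp ((c • Y).comp A) = c • B.comp (Y.comp A) := by
      ext; simp
    rw [this]
    exact Submodule.smul_mem _ c h1

lemma span_bound {M : Set ℕ} {P : L1 →L[ℝ] C0}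
    (hP : P ∈ Submodule.span ℝ {X | ∃ (A : L1 →L[ℝ] L1) (B : C0 →L[ℝ] C0),
      X = B.comp ((opT M).comp A)}) :
    ∃ C : ℝ, 0 ≤ C ∧ ∀ n, n ∉ M → |Phi n P| ≤ C / (n + 1) := by
  refine Submodule.span_induction ?_ ?_ ?_ ?_ hP
  · rintro _ ⟨A, B, rfl⟩
    refine ⟨‖B‖ * ‖A‖, by positivity, fun n hn => ?_⟩
    refine (Phi_comp hn A B).trans (le_of_eq ?_)
    ring
  · refine ⟨0, le_rfl, fun n _ => ?_⟩
    have h0 : Phi n 0 = 0 := by
      have h1 := Phi_smul n 0 0
      rw [zero_mul] at h1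
      rw [← h1]
      congr 1
      ext; simp
    rw [h0]; simp
  · rintro X Y _ _ ⟨C, hC, hX⟩ ⟨C', hC', hY⟩
    refine ⟨C + C', by positivity, fun n hn => ?_⟩
    rw [Phi_add, add_div]
    exact (abs_add_le _ _).trans (add_le_add (hX n hn) (hY n hn))
  · rintro c X _ ⟨C, hC, hX⟩
    refine ⟨|c| * C, by positivity, fun n hn => ?_⟩
    rw [Phi_smul, abs_mul, mul_div_assoc]
    exact mul_le_mul_of_nonneg_left (hX n hn) (abs_nonneg _)

theorem opT_notMem {M M' : Set ℕ} (h : (M \ M').Infinite) : opT M ∉ J M' := by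
  intro hmem
  have hmem' := (Metric.mem_closure_iff (α := L1 →L[ℝ] C0) (s := ((Submodule.span ℝ
      {X | ∃ (A : L1 →L[ℝ] L1) (B : C0 →L[ℝ] C0), X = B.comp ((opT M').comp A)} :
      Submodule ℝ (L1 →L[ℝ] C0)) : Set (L1 →L[ℝ] C0))) (a := opT M)).1 hmem
  obtain ⟨P, hP, hdist⟩ := hmem' (1 / 2) (by norm_num)
  obtain ⟨C, hC, hbound⟩ := span_bound hP
  obtain ⟨m, hm⟩ := exists_nat_gt (2 * C)
  obtain ⟨n, hn, hmn⟩ := h.exists_gt m
  have h1 : Phi n (opT M) = 1 := Phi_opT hn.1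
  have h2 : opT M = (opT M - P) + P := by abel
  rw [h2, Phi_add] at h1
  have h3 := (le_abs_self _).trans (Phi_norm n (opT M - P))
  have hdist' : ‖opT M - P‖ < 1 / 2 := by
    refine lt_of_le_of_lt (le_of_eq ?_) hdist
    exact (dist_eq_norm (opT M) P).symm
  have h4 := (le_abs_self _).trans (hbound n hn.2)
  have h5 : C / (n + 1 : ℝ) < 1 / 2 := by
    rw [div_lt_div_iff₀ (by positivity) (by norm_num)]
    have : (m : ℝ) < n := by exact_mod_cast hmn
    linarith
  linarith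

/-- an almost disjoint family indexed by the subsets of `ℕ` -/
noncomputable def fam (s : Set ℕ) : Set ℕ :=
  open Classical in
  {k | ∃ n, k = Nat.pair n (Encodable.encode ((range n).filter (· ∈ s)))}

lemma fam_diff {s t : Set ℕ} {a : ℕ} (ha : ¬ (a ∈ s ↔ a ∈ t)) : (fam s \ fam t).Infinite := by
  classical
  apply Set.infinite_of_injective_forall_mem
    (f := fun n : ℕ => Nat.pair (n + a + 1) (Encodable.encode ((range (n + a + 1)).filter (· ∈ s))))
  · intro n n' h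
    have := congrArg (fun z => (Nat.unpair z).1) h
    simp only [Nat.unpair_pair] at this
    omega
  · intro n
    refine ⟨⟨n + a + 1, by congr⟩, ?_⟩
    rintro ⟨n', hn'⟩
    rw [Nat.pair_eq_pair] at hn'
    obtain ⟨h1, h2⟩ := hn'
    have h3 := Encodable.encode_injective h2
    apply ha
    have h4 := Finset.ext_iff.1 h3 a
    simp only [Finset.mem_filter, Finset.mem_range] at h4
    rw [← h1] at h4
    have h5 : a < n + a + 1 := by omega
    simpa [h5] using h4

theorem J_fam_injective : Function.Injective fun s : Set ℕ => J (fam s) := by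
  intro s t hst
  ext a
  by_contra ha
  have h1 := opT_notMem (fam_diff ha)
  apply h1
  have h2 : J (fam s) = J (fam t) := hst
  rw [← h2]
  exact J_self _

end Pool.Agent.H722R3
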