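import Pool.Agent.H722R3.BlockNat

set_option autoImplicit false

namespace Pool.Agent.H722R3

open Finset

lemma LocSimple.mono {V : Type*} [DecidableEq V] {U : V → V → ℝ} {r r' : ℕ} (h : LocSimple U r)
    (hr : r' ≤ r) : LocSimple U r' := fun I J hIJ => h I J (hIJ.trans hr)

/-- the size and the matrix of a block with given parameters -/
noncomputable def blkN (r d : ℕ) : ℕ :=
  (exists_block r (1 / (d + 1 : ℝ)) (by positivity)).choose

noncomputable def blkU (r d : ℕ) : ℕ → ℕ → ℝ :=
  (exists_block r (1 / (d + 1 : ℝ)) (by positivity)).choose_spec.choose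

lemma blk_spec (r d : ℕ) : IsBlock (blkN r d) (blkU r d) r (1 / (d + 1 : ℝ)) :=
  (exists_block r (1 / (d + 1 : ℝ)) (by positivity)).choose_spec.choose_spec

/-- control of the sizes of the previous blocks -/
noncomputable def W : ℕ → ℕ
  | 0 => 0
  | m + 1 => W m + (blkN (2 * W m) ((m + 1) * (2 + W m)) ^ 2 + blkN (2 * W m) ((m + 1) * (2 + W m)))

/-- size of the `m`-th block -/
noncomputable def bN (m : ℕ) : ℕ := blkN (2 * W m) ((m + 1) * (2 + W m))

/-- the `m`-th block -/
noncomputable def bU (m : ℕ) : ℕ → ℕ → ℝ := blkU (2 * W m) ((m + 1) * (2 + W m))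

lemma W_succ (m : ℕ) : W (m + 1) = W m + (bN m ^ 2 + bN m) := rfl

lemma W_eq (m : ℕ) : W m = ∑ k ∈ range m, (bN k ^ 2 + bN k) := by
  induction m with
  | zero => simp [W]
  | succ m ih => rw [W_succ, Finset.sum_range_succ, ih]

lemma bN_le_W {k m : ℕ} (h : k < m) : bN k ≤ W m := by
  rw [W_eq]
  refine le_trans ?_ (Finset.single_le_sum (f := fun k => bN k ^ 2 + bN k) (fun _ _ => Nat.zero_le _)
    (Finset.mem_range.2 h))
  simp

lemma sum_sq_le_W (m : ℕ) : ∑ k ∈ range m, bN k ^ 2 ≤ W m := by
  rw [W_eq]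
  exact Finset.sum_le_sum fun k _ => by simp

/-- the cut norm bound of the `m`-th block -/
noncomputable def dl (m : ℕ) : ℝ := 1 / (((m + 1) * (2 + W m) : ℕ) + 1 : ℝ)

lemma b_spec (m : ℕ) : IsBlock (bN m) (bU m) (2 * W m) (dl m) := blk_spec _ _

lemma dl_pos (m : ℕ) : 0 < dl m := by unfold dl; positivity

lemma dl_bound (m : ℕ) : (W m + 2 : ℝ) * dl m ≤ 1 / (m + 1) := by
  unfold dl
  rw [mul_one_div, div_le_div_iff₀ (by positivity) (by positivity)]
  push_cast
  nlinarith [Nat.cast_nonneg (α := ℝ) m, Nat.cast_nonneg (α := ℝ) (W m)]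

/-- the block diagonal matrix with blocks `bU m`, `m ∈ M` -/
noncomputable def T (M : Set ℕ) (k l : ℕ) : ℝ :=
  open Classical in
  if k.unpair.1 = l.unpair.1 ∧ k.unpair.1 ∈ M then bU k.unpair.1 k.unpair.2 l.unpair.2 else 0

lemma T_val (M : Set ℕ) (k l : ℕ) : T M k l = 0 ∨ T M k l = 1 ∨ T M k l = -1 := by
  unfold T
  split_ifs
  · exact (b_spec _).val _ _
  · exact Or.inl rfl

lemma T_abs (M : Set ℕ) (k l : ℕ) : |T M k l| ≤ 1 := by
  rcases T_val M k l with h | h | h <;> simp [h]

lemma T_pair {M : Set ℕ} {n : ℕ} (hn : n ∈ M) (i j : ℕ) :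
    T M (Nat.pair n i) (Nat.pair n j) = bU n i j := by
  simp [T, hn]

lemma T_locSimple (M : Set ℕ) (r : ℕ) (h : ∀ m ∈ M, LocSimple (bU m) r) : LocSimple (T M) r := by
  classical
  intro I J hIJ
  have key : ∀ m : ℕ, ∃ (p q : ℕ → ℕ) (u v : ℕ → ℝ),
      (∀ i, |u i| ≤ 1) ∧ (∀ j, |v j| ≤ 1) ∧ (m ∉ M → (∀ i, u i = 0) ∧ ∀ j, v j = 0) ∧
      (m ∈ M → ∀ i j, Nat.pair m i ∈ I → Nat.pair m j ∈ J →
        bU m i j = (if p i = j then u i else 0) + (if q j = i then v j else 0)) := by
    intro m
    by_cases hm : m ∈ M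
    · set I' := (I.filter fun k => k.unpair.1 = m).image fun k => k.unpair.2
      set J' := (J.filter fun k => k.unpair.1 = m).image fun k => k.unpair.2
      have hI' : I'.card ≤ I.card := Finset.card_image_le.trans (Finset.card_filter_le _ _)
      have hJ' : J'.card ≤ J.card := Finset.card_image_le.trans (Finset.card_filter_le _ _)
      obtain ⟨p, q, u, v, hu, hv, huv⟩ := h m hm I' J' ((add_le_add hI' hJ').trans hIJ)
      refine ⟨p, q, u, v, hu, hv, fun h => absurd hm h, ?_⟩
      intro _ i j hi hj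
      apply huv
      · exact Finset.mem_image.2 ⟨Nat.pair m i, Finset.mem_filter.2 ⟨hi, by simp⟩, by simp⟩
      · exact Finset.mem_image.2 ⟨Nat.pair m j, Finset.mem_filter.2 ⟨hj, by simp⟩, by simp⟩
    · exact ⟨id, id, 0, 0, by simp, by simp, fun _ => ⟨fun _ => rfl, fun _ => rfl⟩,
        fun h => absurd h hm⟩
  choose p q u v hu hv h0 huv using key
  refine ⟨fun k => Nat.pair k.unpair.1 (p k.unpair.1 k.unpair.2),
    fun k => Nat.pair k.unpair.1 (q k.unpair.1 k.unpair.2),
    fun k => u k.unpair.1 k.unpair.2, fun k => v k.unpair.1 k.unpair.2,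
    fun k => hu _ _, fun k => hv _ _, ?_⟩
  intro k hk l hl
  dsimp only
  have hk' : Nat.pair k.unpair.1 k.unpair.2 = k := Nat.pair_unpair k
  have hl' : Nat.pair l.unpair.1 l.unpair.2 = l := Nat.pair_unpair l
  by_cases hkl : k.unpair.1 = l.unpair.1
  · by_cases hM : k.unpair.1 ∈ M
    · have h1 := huv k.unpair.1 hM k.unpair.2 l.unpair.2 (by rw [hk']; exact hk)
        (by rw [hkl, hl']; exact hl)
      have hT : T M k l = bU k.unpair.1 k.unpair.2 l.unpair.2 := by
        unfold T; rw [if_pos ⟨hkl, hM⟩]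
      rw [hT, h1]
      have e1 : (Nat.pair k.unpair.1 (p k.unpair.1 k.unpair.2) = l) ↔
          (p k.unpair.1 k.unpair.2 = l.unpair.2) := by
        conv_lhs => rw [← hl', ← hkl]
        rw [Nat.pair_eq_pair]
        simp
      have e2 : (Nat.pair l.unpair.1 (q l.unpair.1 l.unpair.2) = k) ↔
          (q k.unpair.1 l.unpair.2 = k.unpair.2) := by
        conv_lhs => rw [← hk', ← hkl]
        rw [Nat.pair_eq_pair]
        simp
      simp only [e1, e2]
      rw [← hkl]
    · have hT : T M k l = 0 := by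
        unfold T; rw [if_neg (fun h => hM h.2)]
      have hM' : l.unpair.1 ∉ M := by rw [← hkl]; exact hM
      rw [hT, (h0 _ hM).1, (h0 _ hM').2]
      simp
  · have hT : T M k l = 0 := by
      unfold T; rw [if_neg (fun h => hkl h.1)]
    rw [hT, if_neg, if_neg, add_zero]
    · intro hcon
      apply hkl
      have := congrArg (fun z => (Nat.unpair z).1) hcon
      simpa using this.symm
    · intro hcon
      apply hkl
      have := congrArg (fun z => (Nat.unpair z).1) hcon
      simpa using this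

/-- a cut norm bound survives multiplication by an equality matrix -/
lemma blocky {n : ℕ} {U : ℕ → ℕ → ℝ} {K : ℝ}
    (hU : ∀ x y : ℕ → ℝ, (∀ i, |x i| ≤ 1) → (∀ j, |y j| ≤ 1) →
      |∑ i ∈ range n, ∑ j ∈ range n, U i j * (x i * y j)| ≤ K)
    (α β : ℕ → ℕ) (x y : ℕ → ℝ) (hx : ∀ i, |x i| ≤ 1) (hy : ∀ j, |y j| ≤ 1) :
    |∑ i ∈ range n, ∑ j ∈ range n, U i j * (x i * y j * (if α i = β j then 1 else 0))| ≤ K := by
  classical
  let w : Finset ℕ → ℕ → ℕ → ℝ := fun S a b =>
    if a ∈ S ∨ b ∈ S then (if a = b then 1 else 0) else 1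
  have claim : ∀ S : Finset ℕ, ∀ x y : ℕ → ℝ, (∀ i, |x i| ≤ 1) → (∀ j, |y j| ≤ 1) →
      |∑ i ∈ range n, ∑ j ∈ range n, U i j * (x i * y j * w S (α i) (β j))| ≤ K := by
    intro S
    induction S using Finset.induction_on with
    | empty =>
      intro x y hx hy
      simpa [w] using hU x y hx hy
    | insert s S hs ih =>
      intro x y hx hy
      let e : ℕ → ℝ := fun a => if a = s then -1 else 1
      have he : ∀ a, |e a| = 1 := by
        intro a; simp only [e]; split_ifs <;> simp
      have h1 := ih x y hx hy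
      have h2 := ih (fun i => x i * e (α i)) (fun j => y j * e (β j))
        (fun i => by rw [abs_mul, he, mul_one]; exact hx i)
        (fun j => by rw [abs_mul, he, mul_one]; exact hy j)
      have h3 : ∑ i ∈ range n, ∑ j ∈ range n, U i j * (x i * y j * w (insert s S) (α i) (β j)) =
          (∑ i ∈ range n, ∑ j ∈ range n, U i j * (x i * y j * w S (α i) (β j)) +
          ∑ i ∈ range n, ∑ j ∈ range n,
            U i j * (x i * e (α i) * (y j * e (β j)) * w S (α i) (β j))) / 2 := by
        rw [← Finset.sum_add_distrib, Finset.sum_div]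
        apply Finset.sum_congr rfl
        intro i _
        rw [← Finset.sum_add_distrib, Finset.sum_div]
        apply Finset.sum_congr rfl
        intro j _
        have h4 : w (insert s S) (α i) (β j) =
            (w S (α i) (β j) + e (α i) * e (β j) * w S (α i) (β j)) / 2 := by
          simp only [w, e, Finset.mem_insert]
          by_cases ha : α i = s
          · by_cases hb : β j = s
            · simp [ha, hb]
            · have hb' : ¬ s = β j := fun h => hb h.symm
              by_cases hbS : β j ∈ S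
              · simp [ha, hb, hb', hbS, hs]
              · simp [ha, hb, hb', hbS, hs]
          · by_cases hb : β j = s
            · by_cases haS : α i ∈ S
              · simp [ha, hb, haS, hs]
              · simp [ha, hb, haS, hs]
            · simp [ha, hb]
        rw [h4]
        ring
      rw [h3, abs_div, abs_two]
      have h5 := abs_add_le (∑ i ∈ range n, ∑ j ∈ range n, U i j * (x i * y j * w S (α i) (β j)))
        (∑ i ∈ range n, ∑ j ∈ range n,
            U i j * (x i * e (α i) * (y j * e (β j)) * w S (α i) (β j)))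
      linarith
  have h := claim ((range n).image α) x y hx hy
  refine le_trans (le_of_eq ?_) h
  congr 1
  apply Finset.sum_congr rfl
  intro i hi
  apply Finset.sum_congr rfl
  intro j hj
  have : w ((range n).image α) (α i) (β j) = if α i = β j then 1 else 0 := by
    simp only [w]
    rw [if_pos (Or.inl (Finset.mem_image_of_mem α hi))]
  rw [this]

/-- windows of locally simple matrices are almost orthogonal to a matrix of small cut norm -/
lemma window {n : ℕ} {U : ℕ → ℕ → ℝ} {K : ℝ}
    (hU : ∀ x y : ℕ → ℝ, (∀ i, |x i| ≤ 1) → (∀ j, |y j| ≤ 1) →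
      |∑ i ∈ range n, ∑ j ∈ range n, U i j * (x i * y j)| ≤ K)
    (S : ℕ → ℕ → ℝ) (hS : LocSimple S (2 * n)) (k l : ℕ → ℕ)
    (x y : ℕ → ℝ) (hx : ∀ i, |x i| ≤ 1) (hy : ∀ j, |y j| ≤ 1) :
    |∑ i ∈ range n, ∑ j ∈ range n, U i j * (x i * y j * S (k i) (l j))| ≤ 2 * K := by
  classical
  obtain ⟨p, q, u, v, hu, hv, huv⟩ := hS ((range n).image k) ((range n).image l) (by
    have h1 := Finset.card_image_le (s := range n) (f := k)
    have h2 := Finset.card_image_le (s := range n) (f := l)
    rw [Finset.card_range] at h1 h2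
    omega)
  have h1 := blocky hU (fun i => p (k i)) l (fun i => x i * u (k i)) y
    (fun i => by
      rw [abs_mul]
      exact mul_le_one₀ (hx i) (abs_nonneg _) (hu _)) hy
  have h2 := blocky hU k (fun j => q (l j)) x (fun j => y j * v (l j)) hx
    (fun j => by
      rw [abs_mul]
      exact mul_le_one₀ (hy j) (abs_nonneg _) (hv _))
  have h3 : ∑ i ∈ range n, ∑ j ∈ range n, U i j * (x i * y j * S (k i) (l j)) =
      ∑ i ∈ range n, ∑ j ∈ range n,
        U i j * (x i * u (k i) * y j * (if p (k i) = l j then 1 else 0)) +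
      ∑ i ∈ range n, ∑ j ∈ range n,
        U i j * (x i * (y j * v (l j)) * (if k i = q (l j) then 1 else 0)) := by
    rw [← Finset.sum_add_distrib]
    apply Finset.sum_congr rfl
    intro i hi
    rw [← Finset.sum_add_distrib]
    apply Finset.sum_congr rfl
    intro j hj
    rw [huv (k i) (Finset.mem_image_of_mem k hi) (l j) (Finset.mem_image_of_mem l hj)]
    have h4 : (k i = q (l j)) ↔ (q (l j) = k i) := eq_comm
    simp only [h4]
    split_ifs <;> ring
  rw [h3]
  have h5 := abs_add_le (∑ i ∈ range n, ∑ j ∈ range n,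
        U i j * (x i * u (k i) * y j * (if p (k i) = l j then 1 else 0)))
      (∑ i ∈ range n, ∑ j ∈ range n,
        U i j * (x i * (y j * v (l j)) * (if k i = q (l j) then 1 else 0)))
  linarith

end Pool.Agent.H722R3
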