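import Pool.Agent.H722R3.Est

set_option autoImplicit false

namespace Pool.Agent.H722R3

open Finset Filter Topology

/-- `ℓ₁` -/
abbrev L1 := lp (fun _ : ℕ => ℝ) (1 : ENNReal)

/-- `c₀` -/
abbrev C0 := ZeroAtInftyContinuousMap ℕ ℝ

lemma c0_norm_le (f : C0) {C : ℝ} (hC : 0 ≤ C) (h : ∀ k, |f k| ≤ C) : ‖f‖ ≤ C := by
  rw [← ZeroAtInftyContinuousMap.norm_toBCF_eq_norm]
  exact (BoundedContinuousFunction.norm_le hC).2 h

lemma c0_coord (f : C0) (k : ℕ) : |f k| ≤ ‖f‖ := by
  rw [← ZeroAtInftyContinuousMap.norm_toBCF_eq_norm]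
  exact BoundedContinuousFunction.norm_coe_le_norm f.toBCF k

lemma c0_exists (f : C0) {c : ℝ} (hc : c < ‖f‖) : ∃ k, c < |f k| := by
  by_contra hcon
  push Not at hcon
  have hc0 : 0 ≤ c := (abs_nonneg _).trans (hcon 0)
  exact absurd (c0_norm_le f hc0 hcon) (not_le.2 hc)

lemma l1_summable (a : L1) : Summable fun l => ‖a l‖ := by
  have h := (memℓp_gen_iff (by norm_num : 0 < (1 : ENNReal).toReal)).1 (lp.memℓp a)
  simpa using h

lemma l1_norm (a : L1) : ‖a‖ = ∑' l, ‖a l‖ := by
  rw [lp.norm_eq_tsum_rpow (by norm_num : 0 < (1 : ENNReal).toReal)]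
  simp

/-- unit vectors -/
noncomputable def ev (l : ℕ) : L1 := lp.single 1 l (1 : ℝ)

lemma ev_norm (l : ℕ) : ‖ev l‖ = 1 := by
  unfold ev
  rw [lp.norm_single (by norm_num)]
  simp

lemma ev_apply (l m : ℕ) : (ev l : L1) m = if m = l then 1 else 0 := by
  unfold ev
  rw [lp.single_apply]
  by_cases h : m = l
  · subst h; simp
  · simp [h]

lemma l1_hasSum (a : L1) : HasSum (fun l => a l • ev l) a := by
  have h := lp.hasSum_single (p := 1) (by norm_num) a
  have h2 : (fun l => a l • ev l) = fun l => lp.single 1 l (a l) := by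
    funext l
    unfold ev
    rw [← lp.single_smul]
    congr 1
    exact mul_one (a l)
  rw [h2]
  exact h

/-- functionals on `ℓ₁` are bounded by their values on the unit vectors -/
lemma l1_functional (ψ : L1 →L[ℝ] ℝ) {c : ℝ} (hc : 0 ≤ c) (h : ∀ l, |ψ (ev l)| ≤ c) : ‖ψ‖ ≤ c := by
  apply ContinuousLinearMap.opNorm_le_bound _ hc
  intro a
  have h1 : HasSum (fun l => ψ (a l • ev l)) (ψ a) := (l1_hasSum a).mapL ψ
  have h2 : ∀ l, ‖ψ (a l • ev l)‖ ≤ ‖a l‖ * c := by
    intro l
    rw [map_smul, norm_smul]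
    exact mul_le_mul_of_nonneg_left (h l) (norm_nonneg _)
  rw [← h1.tsum_eq, l1_norm, mul_comm, ← tsum_mul_right]
  exact tsum_of_norm_bounded ((l1_summable a).mul_right c).hasSum h2

lemma l1_exists (ψ : L1 →L[ℝ] ℝ) {c : ℝ} (hc : c < ‖ψ‖) : ∃ l, c < |ψ (ev l)| := by
  by_contra hcon
  push Not at hcon
  have hc0 : 0 ≤ c := (abs_nonneg _).trans (hcon 0)
  exact absurd (l1_functional ψ hc0 hcon) (not_le.2 hc)

/-- the `l`-th column of `T M` -/
noncomputable def col (M : Set ℕ) (l : ℕ) : C0 where
  toFun k := T M k l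
  continuous_toFun := continuous_of_discreteTopology
  zero_at_infty' := by
    have hfin : {k | T M k l ≠ 0}.Finite := by
      apply ((Finset.range (bN l.unpair.1)).image fun i => Nat.pair l.unpair.1 i).finite_toSet.subset
      intro k hk
      have h1 : k.unpair.1 = l.unpair.1 ∧ k.unpair.1 ∈ M := by
        by_contra hcon
        exact hk (by unfold T; rw [if_neg hcon])
      have h2 : bU k.unpair.1 k.unpair.2 l.unpair.2 ≠ 0 := by
        intro hcon
        apply hk
        unfold T; rw [if_pos h1, hcon]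
      have h3 := (b_spec k.unpair.1).supp _ _ h2
      simp only [Finset.coe_image, Set.mem_image, Finset.coe_range, Set.mem_Iio]
      refine ⟨k.unpair.2, ?_, ?_⟩
      · rw [← h1.1]; exact h3.1
      · rw [← h1.1]; exact Nat.pair_unpair k
    have h : (fun k => T M k l) =ᶠ[cocompact ℕ] fun _ => 0 := by
      rw [cocompact_eq_cofinite]
      exact hfin.subset (fun k hk => hk)
    exact (tendsto_congr' h).2 tendsto_const_nhds

lemma col_apply (M : Set ℕ) (l k : ℕ) : col M l k = T M k l := rfl

lemma col_norm (M : Set ℕ) (l : ℕ) : ‖col M l‖ ≤ 1 :=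
  c0_norm_le _ zero_le_one fun k => T_abs M k l

lemma col_summable (M : Set ℕ) (a : L1) : Summable fun l => a l • col M l := by
  apply Summable.of_norm_bounded (l1_summable a)
  intro l
  rw [norm_smul]
  calc ‖a l‖ * ‖col M l‖ ≤ ‖a l‖ * 1 := mul_le_mul_of_nonneg_left (col_norm M l) (norm_nonneg _)
    _ = ‖a l‖ := mul_one _

/-- the operator with matrix `T M` -/
noncomputable def opT (M : Set ℕ) : L1 →L[ℝ] C0 :=
  LinearMap.mkContinuous
    { toFun := fun a => ∑' l, a l • col M l
      map_add' := by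
        intro a b
        rw [← (col_summable M a).tsum_add (col_summable M b)]
        apply tsum_congr
        intro l
        have h : (a + b : L1) l = a l + b l := rfl
        rw [h]
        exact add_smul (a l) (b l) (col M l)
      map_smul' := by
        intro c a
        rw [RingHom.id_apply, ← (col_summable M a).tsum_const_smul]
        apply tsum_congr
        intro l
        have h : (c • a : L1) l = c * a l := rfl
        rw [h]
        exact mul_smul c (a l) (col M l) }
    1 (by
      intro a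
      simp only [LinearMap.coe_mk, AddHom.coe_mk, one_mul]
      rw [l1_norm]
      apply tsum_of_norm_bounded (l1_summable a).hasSum
      intro l
      rw [norm_smul]
      calc ‖a l‖ * ‖col M l‖ ≤ ‖a l‖ * 1 := mul_le_mul_of_nonneg_left (col_norm M l) (norm_nonneg _)
        _ = ‖a l‖ := mul_one _)

lemma opT_ev (M : Set ℕ) (l : ℕ) : opT M (ev l) = col M l := by
  show ∑' m, (ev l : L1) m • col M m = col M l
  rw [tsum_eq_single l]
  · rw [ev_apply]; simp
  · intro m hm
    rw [ev_apply]
    simp [hm]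

end Pool.Agent.H722R3
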