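import Mathlib

set_option autoImplicit false

namespace Pool.Agent.H722R3

open Finset

/-- the sign attached to a Boolean -/
noncomputable def sg (b : Bool) : ℝ := if b then 1 else -1

lemma sg_sq (b : Bool) : sg b * sg b = 1 := by cases b <;> simp [sg]

lemma sg_cases (b : Bool) : sg b = 1 ∨ sg b = -1 := by cases b <;> simp [sg]

lemma exists_sg {x : ℝ} (h : x = 1 ∨ x = -1) : ∃ b, sg b = x := by
  rcases h with h | h
  · exact ⟨true, by simp [sg, h]⟩
  · exact ⟨false, by simp [sg, h]⟩

/-- Signs on the edges of a multigraph whose bilinear form is small on sign vectors. -/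
theorem exists_signs {R C E : Type*} [Fintype R] [Fintype C] [Fintype E] [DecidableEq R]
    [DecidableEq C] [DecidableEq E]
    (s : E → R) (t : E → C) (δ : ℝ) (hδ : 0 < δ)
    (h : ((Fintype.card R : ℝ) + Fintype.card C) * Real.log 2 ≤ δ ^ 2 * Fintype.card E / 2) :
    ∃ ε : E → ℝ, (∀ e, ε e = 1 ∨ ε e = -1) ∧
      ∀ (x : R → ℝ) (y : C → ℝ), (∀ i, x i = 1 ∨ x i = -1) → (∀ j, y j = 1 ∨ y j = -1) →
        ∑ e, ε e * (x (s e) * y (t e)) ≤ δ * Fintype.card E := by
  classical
  -- the total exponential sum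
  have hprod : ∀ z : E → ℝ, (∀ e, z e = 1 ∨ z e = -1) →
      ∑ ε : E → Bool, Real.exp (δ * ∑ e, sg (ε e) * z e) = (2 * Real.cosh δ) ^ Fintype.card E := by
    intro z hz
    have h1 : ∀ ε : E → Bool, Real.exp (δ * ∑ e, sg (ε e) * z e)
        = ∏ e, Real.exp (δ * (sg (ε e) * z e)) := by
      intro ε
      rw [Finset.mul_sum, Real.exp_sum]
    simp_rw [h1]
    have h2 := Finset.prod_univ_sum (fun _ : E => (Finset.univ : Finset Bool))
      (fun e b => Real.exp (δ * (sg b * z e)))
    rw [Fintype.piFinset_univ] at h2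
    rw [← h2]
    have h3 : ∀ e : E, ∑ b : Bool, Real.exp (δ * (sg b * z e)) = 2 * Real.cosh δ := by
      intro e
      rw [Fintype.sum_bool, Real.cosh_eq]
      rcases hz e with h | h <;> simp [sg, h] <;> ring
    simp_rw [h3]
    simp
  set P := (R → Bool) × (C → Bool)
  let Z : (E → Bool) → P → ℝ := fun ε p => ∑ e, sg (ε e) * (sg (p.1 (s e)) * sg (p.2 (t e)))
  have htot : ∑ ε : E → Bool, ∑ p : P, Real.exp (δ * Z ε p)
      = Fintype.card P * (2 * Real.cosh δ) ^ Fintype.card E := by
    rw [Finset.sum_comm]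
    have : ∀ p : P, ∑ ε : E → Bool, Real.exp (δ * Z ε p) = (2 * Real.cosh δ) ^ Fintype.card E := by
      intro p
      apply hprod
      intro e
      rcases sg_cases (p.1 (s e)) with h1 | h1 <;> rcases sg_cases (p.2 (t e)) with h2 | h2 <;>
        simp [h1, h2]
    simp_rw [this]
    simp
  have hex : ∃ ε : E → Bool, ∑ p : P, Real.exp (δ * Z ε p)
      ≤ Fintype.card P * (Real.cosh δ) ^ Fintype.card E := by
    by_contra hcon
    push Not at hcon
    have h1 : ∑ ε : E → Bool, (Fintype.card P * (Real.cosh δ) ^ Fintype.card E : ℝ)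
        < ∑ ε : E → Bool, ∑ p : P, Real.exp (δ * Z ε p) :=
      Finset.sum_lt_sum_of_nonempty ⟨fun _ => true, Finset.mem_univ _⟩ fun ε _ => hcon ε
    rw [htot] at h1
    simp only [Finset.sum_const, Finset.card_univ, Fintype.card_fun, Fintype.card_bool,
      nsmul_eq_mul, mul_pow] at h1
    push_cast at h1
    nlinarith
  obtain ⟨ε, hε⟩ := hex
  refine ⟨fun e => sg (ε e), fun e => sg_cases _, ?_⟩
  intro x y hx hy
  choose bx hbx using fun i => exists_sg (hx i)
  choose bz hbz using fun j => exists_sg (hy j)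
  have h1 : Real.exp (δ * Z ε (bx, bz)) ≤ Fintype.card P * (Real.cosh δ) ^ Fintype.card E :=
    le_trans (Finset.single_le_sum (f := fun p => Real.exp (δ * Z ε p))
      (fun p _ => (Real.exp_pos _).le) (Finset.mem_univ (bx, bz))) hε
  have h2 : Z ε (bx, bz) = ∑ e, sg (ε e) * (x (s e) * y (t e)) := by
    simp only [Z, hbx, hbz]
  rw [h2] at h1
  have h3 : (Fintype.card P : ℝ) = Real.exp (((Fintype.card R : ℝ) + Fintype.card C) * Real.log 2) := by
    have : Fintype.card P = 2 ^ (Fintype.card R + Fintype.card C) := by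
      simp [P, Fintype.card_prod, pow_add]
    rw [this]
    push_cast
    rw [mul_comm, Real.exp_mul, Real.exp_log (by norm_num : (0:ℝ) < 2)]
    rw [← Nat.cast_add, Real.rpow_natCast]
  have h4 : (Real.cosh δ) ^ Fintype.card E ≤ Real.exp (δ ^ 2 / 2 * Fintype.card E) := by
    rw [Real.exp_mul, Real.rpow_natCast]
    exact pow_le_pow_left₀ (Real.cosh_pos δ).le (Real.cosh_le_exp_half_sq δ) _
  have h5 : Real.exp (δ * ∑ e, sg (ε e) * (x (s e) * y (t e))) ≤
      Real.exp (((Fintype.card R : ℝ) + Fintype.card C) * Real.log 2 + δ ^ 2 / 2 * Fintype.card E) := by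
    rw [Real.exp_add, ← h3]
    exact h1.trans (mul_le_mul_of_nonneg_left h4 (by positivity))
  have h6 := Real.exp_le_exp.1 h5
  have h7 : δ * ∑ e, sg (ε e) * (x (s e) * y (t e)) ≤ δ * (δ * Fintype.card E) := by
    nlinarith
  exact le_of_mul_le_mul_left h7 hδ

end Pool.Agent.H722R3
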